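import Pool.Agent.W209.KT.Stm
import Pool.Agent.S17839

/-! KT-DIV: the subspace is of Khintchine type for divergence. -/

set_option autoImplicit false

open Filter MeasureTheory

namespace Pool.Agent.W686.KT.DIV

open Pool.Agent.W209.KT

/-- the linear part -/
noncomputable def B (A : Fin 2 → Fin 11 → ℝ) : (Fin 10 → ℝ) →ₗ[ℝ] (Fin 12 → ℝ) where
  toFun t := Fin.append t (fun j : Fin 2 => ∑ l : Fin 10, A j l.succ * t l)
  map_add' s t := by
    funext i
    refine Fin.addCases (m := 10) (n := 2) (fun i => ?_) (fun j => ?_) i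
    · rw [Pi.add_apply, Fin.append_left, Fin.append_left, Fin.append_left, Pi.add_apply]
    · rw [Pi.add_apply, Fin.append_right, Fin.append_right, Fin.append_right,
        ← Finset.sum_add_distrib]
      refine Finset.sum_congr rfl fun l _ => ?_
      rw [Pi.add_apply]; ring
  map_smul' c t := by
    funext i
    refine Fin.addCases (m := 10) (n := 2) (fun i => ?_) (fun j => ?_) i
    · rw [Pi.smul_apply, Fin.append_left, Fin.append_left, Pi.smul_apply]; rfl
    · rw [Pi.smul_apply, Fin.append_right, Fin.append_right, RingHom.id_apply, smul_eq_mul,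
        Finset.mul_sum]
      refine Finset.sum_congr rfl fun l _ => ?_
      rw [Pi.smul_apply, smul_eq_mul]; ring

theorem B_inj (A : Fin 2 → Fin 11 → ℝ) : Function.Injective (B A) := by
  intro s t h
  funext i
  have h1 := congrFun h (Fin.castAdd 2 i)
  have h2 : ∀ t : Fin 10 → ℝ, B A t (Fin.castAdd 2 i) = t i := fun t =>
    Fin.append_left t (fun j : Fin 2 => ∑ l : Fin 10, A j l.succ * t l) i
  rwa [h2, h2] at h1

theorem pt_eq (A : Fin 2 → Fin 11 → ℝ) (t : Fin 10 → ℝ) (i : Fin 12) :
    pt A 0 i + B A t i = pt A t i := by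
  refine Fin.addCases (m := 10) (n := 2) (fun i => ?_) (fun j => ?_) i
  · have h1 : ∀ x : Fin 10 → ℝ, pt A x (Fin.castAdd 2 i) = x i := fun x =>
      Fin.append_left x (fun j : Fin 2 => aff A j x) i
    have h2 : B A t (Fin.castAdd 2 i) = t i :=
      Fin.append_left t (fun j : Fin 2 => ∑ l : Fin 10, A j l.succ * t l) i
    rw [h1, h1, h2, Pi.zero_apply, zero_add]
  · have h1 : ∀ x : Fin 10 → ℝ, pt A x (Fin.natAdd 10 j) = aff A j x := fun x =>
      Fin.append_right x (fun j : Fin 2 => aff A j x) j
    have h2 : B A t (Fin.natAdd 10 j) = ∑ l : Fin 10, A j l.succ * t l :=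
      Fin.append_right t (fun j : Fin 2 => ∑ l : Fin 10, A j l.succ * t l) j
    rw [h1, h1, h2]
    unfold aff
    simp

theorem div : S_div := by
  intro A ψ h0 hanti hdiv
  have h := Pool.Agent.S17839.result 12 10 (by norm_num) (pt A 0) (B A) (B_inj A) ψ h0 hanti hdiv
  filter_upwards [h] with t ht
  unfold Appr
  refine ht.mono fun q hq i => ?_
  have h1 := hq i
  rw [pt_eq] at h1
  exact h1

end Pool.Agent.W686.KT.DIV
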